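import Pool.Agent.DPS.Stmts
import Pool.Agent.DPS.Final

namespace Pool.Agent.DPS.H59

open Finset

/-- The final statement. -/
def Final : Prop :=
  ∀ (n k t : ℕ), 1 ≤ t → t ≤ k → (t + 1) * (k - t + 1) ≤ n →
    ∀ A : Finset (Finset (Fin n)), A ⊆ powersetCard k univ → TInt t A →
    ∀ T : Finset (Fin n), T.card = t →
      (∀ r : ℕ, r ≤ k → ell r 2 A * ((fullStar k T).card : ℝ) ≤ ell r 2 (fullStar k T) * (A.card : ℝ)) ∧
      (∀ r : ℕ, r ≤ k → ell r 2 A ≤ ell r 2 (fullStar k T)) ∧
      (∀ p : ℝ, 2 ≤ p → ell 1 p A ≤ ell 1 p (fullStar k T))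

variable {n k : ℕ}

/-- the subtype version of a family -/
def lft (k : ℕ) (A : Finset (Finset (Fin n))) : Finset (KS n k) :=
  univ.filter fun F : KS n k => F.1 ∈ A

lemma mem_lft (A : Finset (Finset (Fin n))) (F : KS n k) : F ∈ lft k A ↔ F.1 ∈ A := by
  unfold lft; simp

lemma dg_lft (A : Finset (Finset (Fin n))) (hA : A ⊆ powersetCard k univ) (R : Finset (Fin n)) :
    dg (ind (lft k A)) R = (degree A R : ℝ) := by
  unfold dg ind degree
  have e1 : ∀ F : KS n k, (if R ⊆ F.1 then (if F ∈ lft k A then (1 : ℝ) else 0) else 0) =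
      if (F.1 ∈ A ∧ R ⊆ F.1) then (1 : ℝ) else 0 := by
    intro F
    have hm := mem_lft A F
    by_cases h1 : R ⊆ F.1 <;> by_cases h2 : F.1 ∈ A <;> simp [h1, h2, hm]
  rw [Finset.sum_congr rfl fun F _ => e1 F, Finset.sum_boole]
  norm_cast
  refine Finset.card_bij (fun F _ => F.1) ?_ ?_ ?_
  · intro F hF
    simpa using hF
  · intro F _ G _ h
    exact Subtype.ext h
  · intro F hF
    rw [mem_filter] at hF
    refine ⟨⟨F, (mem_powersetCard.1 (hA hF.1)).2⟩, ?_, rfl⟩
    simp [hF.1, hF.2]

lemma card_lft (A : Finset (Finset (Fin n))) (hA : A ⊆ powersetCard k univ) :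
    (lft k A).card = A.card := by
  refine Finset.card_bij (fun F _ => F.1) ?_ ?_ ?_
  · intro F hF
    exact (mem_lft A F).1 hF
  · intro F _ G _ h
    exact Subtype.ext h
  · intro F hF
    exact ⟨⟨F, (mem_powersetCard.1 (hA hF)).2⟩, (mem_lft A _).2 hF, rfl⟩

lemma fullStar_sub (T : Finset (Fin n)) : fullStar k T ⊆ powersetCard k univ :=
  Finset.filter_subset _ _

lemma star_eq (T : Finset (Fin n)) : star k T = ind (lft k (fullStar k T)) := by
  funext F
  unfold star ind
  have hm := mem_lft (fullStar k T) F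
  have : (F.1 ∈ fullStar k T) ↔ T ⊆ F.1 := by
    unfold fullStar
    rw [mem_filter, mem_powersetCard]
    constructor
    · intro h; exact h.2
    · intro h; exact ⟨⟨subset_univ _, F.2⟩, h⟩
  simp only [hm, this]

lemma dg_star (T R : Finset (Fin n)) : dg (star k T) R = (degree (fullStar k T) R : ℝ) := by
  rw [star_eq, dg_lft _ (fullStar_sub T)]

lemma ip_ind (A : Finset (KS n k)) : ip (ind A) (ind A) = (A.card : ℝ) := by
  unfold ip ind
  have : ∀ F : KS n k, (if F ∈ A then (1 : ℝ) else 0) * (if F ∈ A then (1 : ℝ) else 0) =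
      if F ∈ A then 1 else 0 := by
    intro F; by_cases h : F ∈ A <;> simp [h]
  rw [Finset.sum_congr rfl fun F _ => this F, Finset.sum_boole]
  simp

lemma ip_star (T : Finset (Fin n)) : ip (star k T) (star k T) = ((fullStar k T).card : ℝ) := by
  rw [star_eq, ip_ind, card_lft _ (fullStar_sub T)]

lemma lft_tint {t : ℕ} (A : Finset (Finset (Fin n))) (h : TInt t A) :
    ∀ F ∈ lft k A, ∀ G ∈ lft k A, t ≤ (F.1 ∩ G.1).card := by
  intro F hF G hG
  exact h F.1 ((mem_lft A F).1 hF) G.1 ((mem_lft A G).1 hG)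

lemma sum_single (f : Fin n → ℝ) (g : Finset (Fin n) → ℝ) (h : ∀ x, g {x} = f x) :
    ∑ R ∈ powersetCard 1 (univ : Finset (Fin n)), g R = ∑ x : Fin n, f x := by
  rw [Finset.powersetCard_one, Finset.sum_map]
  exact Finset.sum_congr rfl fun x _ => h x

lemma ell_one (p : ℝ) (A : Finset (Finset (Fin n))) :
    ell 1 p A = ∑ x : Fin n, (degree A {x} : ℝ) ^ p := by
  unfold ell
  exact sum_single (fun x => (degree A {x} : ℝ) ^ p) (fun R => (degree A R : ℝ) ^ p) fun x => rfl

lemma ell_two (r : ℕ) (A : Finset (Finset (Fin n))) :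
    ell r 2 A = ∑ R ∈ powersetCard r (univ : Finset (Fin n)), (degree A R : ℝ) ^ 2 := by
  unfold ell
  refine Finset.sum_congr rfl fun R _ => ?_
  norm_cast

lemma ell_singleton (r : ℕ) (p : ℝ) (hp : 0 < p) (F : Finset (Fin n)) :
    ell r p {F} = (F.card.choose r : ℝ) := by
  unfold ell degree
  have e1 : ∀ R : Finset (Fin n),
      (((({F} : Finset (Finset (Fin n))).filter fun G => R ⊆ G).card : ℕ) : ℝ) ^ p =
        if R ⊆ F then (1 : ℝ) else 0 := by
    intro R
    by_cases h : R ⊆ F
    · rw [Finset.filter_singleton, if_pos h, if_pos h]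
      simp
    · rw [Finset.filter_singleton, if_neg h, if_neg h]
      simp [Real.zero_rpow hp.ne']
  rw [Finset.sum_congr rfl fun R _ => e1 R, Finset.sum_boole, ← Finset.card_powersetCard]
  norm_cast
  congr 1
  ext R
  simp only [mem_filter, mem_powersetCard]
  constructor
  · rintro ⟨⟨_, h1⟩, h2⟩; exact ⟨h2, h1⟩
  · rintro ⟨h1, h2⟩; exact ⟨⟨subset_univ _, h2⟩, h1⟩

lemma ell_empty (r : ℕ) (p : ℝ) (hp : 0 < p) : ell (n := n) r p ∅ = 0 := by
  unfold ell degree
  refine Finset.sum_eq_zero fun R _ => ?_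
  simp [Real.zero_rpow hp.ne']

lemma fullStar_self (T : Finset (Fin n)) : fullStar T.card T = {T} := by
  unfold fullStar
  ext F
  simp only [mem_filter, mem_powersetCard, mem_singleton]
  constructor
  · rintro ⟨⟨_, h1⟩, h2⟩
    exact (Finset.eq_of_subset_of_card_le h2 h1.le).symm
  · rintro rfl
    exact ⟨⟨subset_univ _, rfl⟩, Subset.refl _⟩

lemma eq_of_tint {t : ℕ} {F G : Finset (Fin n)} (hF : F.card = t) (hG : G.card = t)
    (h : t ≤ (F ∩ G).card) : F = G := by
  have h1 : F ∩ G = F := Finset.eq_of_subset_of_card_le Finset.inter_subset_left (hF ▸ h)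
  have h2 : F ∩ G = G := Finset.eq_of_subset_of_card_le Finset.inter_subset_right (hG ▸ h)
  exact h1.symm.trans h2

theorem fin (hP : P2AStmt) (hR : R1PStmt) : Final := by
  intro n k t ht htk hn A hA hT T hTc
  rcases Nat.lt_or_ge t k with hlt | hge
  · have hl := lft_tint (k := k) A hT
    have key : ∀ r : ℕ, r ≤ k → (A.card : ℝ) ≤ ((fullStar k T).card : ℝ) ∧
        ((fullStar k T).card : ℝ) * ell r 2 A ≤ (A.card : ℝ) * ell r 2 (fullStar k T) := by
      intro r hr
      have h := hP n k t r ht hlt hr hn (lft k A) hl T hTc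
      rw [card_lft A hA, ip_star] at h
      have e1 : ∑ R ∈ powersetCard r (univ : Finset (Fin n)), dg (ind (lft k A)) R ^ 2 =
          ell r 2 A := by
        rw [ell_two]
        exact Finset.sum_congr rfl fun R _ => by rw [dg_lft A hA]
      have e2 : ∑ R ∈ powersetCard r (univ : Finset (Fin n)), dg (star k T) R ^ 2 =
          ell r 2 (fullStar k T) := by
        rw [ell_two]
        exact Finset.sum_congr rfl fun R _ => by rw [dg_star]
      rw [e1, e2] at h
      exact h
    have hnn : ∀ (r : ℕ) (B : Finset (Finset (Fin n))), 0 ≤ ell r 2 B := by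
      intro r B
      rw [ell_two]
      positivity
    refine ⟨fun r hr => ?_, fun r hr => ?_, fun p hp => ?_⟩
    · have := (key r hr).2
      linarith [this, mul_comm ((fullStar k T).card : ℝ) (ell r 2 A),
        mul_comm (A.card : ℝ) (ell r 2 (fullStar k T))]
    · obtain ⟨h1, h2⟩ := key r hr
      by_cases h0 : ((fullStar k T).card : ℝ) = 0
      · have hA0 : (A.card : ℝ) = 0 := le_antisymm (h1.trans h0.le) (Nat.cast_nonneg _)
        have hA1 : A = ∅ := by
          rw [← Finset.card_eq_zero]; exact_mod_cast hA0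
        rw [hA1, ell_empty r 2 (by norm_num)]
        exact hnn _ _
      · have h3 : (0 : ℝ) < ((fullStar k T).card : ℝ) := lt_of_le_of_ne (Nat.cast_nonneg _) (Ne.symm h0)
        have h4 : ((fullStar k T).card : ℝ) * ell r 2 A ≤
            ((fullStar k T).card : ℝ) * ell r 2 (fullStar k T) :=
          h2.trans (mul_le_mul_of_nonneg_right h1 (hnn _ _))
        exact le_of_mul_le_mul_left h4 h3
    · have h := hR n k t ht hlt hn p hp (lft k A) hl T hTc
      rw [ell_one, ell_one]
      have e1 : ∀ x : Fin n, dg (ind (lft k A)) {x} = (degree A {x} : ℝ) := fun x => dg_lft A hA _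
      have e2 : ∀ x : Fin n, dg (star k T) {x} = (degree (fullStar k T) {x} : ℝ) := fun x => dg_star _ _
      simpa only [e1, e2] using h
  · have hkt : k = t := le_antisymm hge htk
    subst hkt
    have hS : fullStar k T = {T} := by
      have := fullStar_self T
      rw [hTc] at this
      exact this
    have hA' : A = ∅ ∨ ∃ F, A = {F} ∧ F.card = k := by
      rcases A.eq_empty_or_nonempty with h | ⟨F, hF⟩
      · exact Or.inl h
      · right
        refine ⟨F, ?_, (mem_powersetCard.1 (hA hF)).2⟩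
        ext G
        rw [mem_singleton]
        constructor
        · intro hG
          exact eq_of_tint (mem_powersetCard.1 (hA hG)).2 (mem_powersetCard.1 (hA hF)).2
            (hT G hG F hF)
        · rintro rfl; exact hF
    have main : ∀ (r : ℕ) (p : ℝ), 0 < p → ell r p A ≤ ell r p (fullStar k T) ∧
        ell r p A * ((fullStar k T).card : ℝ) ≤ ell r p (fullStar k T) * (A.card : ℝ) := by
      intro r p hp
      rw [hS, ell_singleton r p hp T, hTc]
      rcases hA' with h | ⟨F, h, hF⟩
      · rw [h, ell_empty r p hp]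
        simp
      · rw [h, ell_singleton r p hp F, hF]
        simp
    refine ⟨fun r _ => (main r 2 (by norm_num)).2, fun r _ => (main r 2 (by norm_num)).1,
      fun p hp => (main 1 p (by linarith)).1⟩

end Pool.Agent.DPS.H59
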