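import Pool.Agent.DPS.Stmts

namespace Pool.Agent.DPS.H59

open Finset

variable {n k : ℕ}

lemma map_swap_subset (T F : Finset (Fin n)) (a b : Fin n) :
    T ⊆ F.map (Equiv.swap a b).toEmbedding ↔ T.map (Equiv.swap a b).toEmbedding ⊆ F := by
  constructor
  · intro h x hx
    rw [mem_map] at hx
    obtain ⟨z, hz, rfl⟩ := hx
    have h1 := h hz
    rw [mem_map] at h1
    obtain ⟨w, hw, hwz⟩ := h1
    have h2 : (Equiv.swap a b) w = z := hwz
    have h3 : (Equiv.swap a b) z = w := by rw [← h2, Equiv.swap_apply_self]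
    have h4 : (Equiv.swap a b).toEmbedding z = w := h3
    rw [h4]
    exact hw
  · intro h z hz
    rw [mem_map]
    refine ⟨(Equiv.swap a b) z, h (mem_map.2 ⟨z, hz, rfl⟩), ?_⟩
    show (Equiv.swap a b) ((Equiv.swap a b) z) = z
    rw [Equiv.swap_apply_self]

lemma star_sw (T : Finset (Fin n)) (a b : Fin n) (F : KS n k) :
    star k T (sw a b F) = star k (T.map (Equiv.swap a b).toEmbedding) F := by
  unfold star sw
  simp only [map_swap_subset]

lemma map_of_mem_mem (T : Finset (Fin n)) {a b : Fin n} (ha : a ∈ T) (hb : b ∈ T) :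
    T.map (Equiv.swap a b).toEmbedding = T := by
  ext x
  rw [mem_map]
  constructor
  · rintro ⟨z, hz, rfl⟩
    show (Equiv.swap a b) z ∈ T
    by_cases h1 : z = a
    · subst h1; rw [Equiv.swap_apply_left]; exact hb
    · by_cases h2 : z = b
      · subst h2; rw [Equiv.swap_apply_right]; exact ha
      · rw [Equiv.swap_apply_of_ne_of_ne h1 h2]; exact hz
  · intro hx
    refine ⟨(Equiv.swap a b) x, ?_, ?_⟩
    · by_cases h1 : x = a
      · subst h1; rw [Equiv.swap_apply_left]; exact hb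
      · by_cases h2 : x = b
        · subst h2; rw [Equiv.swap_apply_right]; exact ha
        · rw [Equiv.swap_apply_of_ne_of_ne h1 h2]; exact hx
    · show (Equiv.swap a b) ((Equiv.swap a b) x) = x
      rw [Equiv.swap_apply_self]

lemma map_of_not_not (T : Finset (Fin n)) {a b : Fin n} (ha : a ∉ T) (hb : b ∉ T) :
    T.map (Equiv.swap a b).toEmbedding = T := by
  ext x
  rw [mem_map]
  constructor
  · rintro ⟨z, hz, rfl⟩
    show (Equiv.swap a b) z ∈ T
    have h1 : z ≠ a := fun h => ha (h ▸ hz)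
    have h2 : z ≠ b := fun h => hb (h ▸ hz)
    rw [Equiv.swap_apply_of_ne_of_ne h1 h2]; exact hz
  · intro hx
    have h1 : x ≠ a := fun h => ha (h ▸ hx)
    have h2 : x ≠ b := fun h => hb (h ▸ hx)
    exact ⟨x, hx, Equiv.swap_apply_of_ne_of_ne h1 h2⟩

lemma map_of_mem_not (T : Finset (Fin n)) {a b : Fin n} (ha : a ∈ T) (hb : b ∉ T) :
    T.map (Equiv.swap a b).toEmbedding = insert b (T.erase a) := by
  ext x
  rw [mem_map, mem_insert, mem_erase]
  constructor
  · rintro ⟨z, hz, rfl⟩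
    show (Equiv.swap a b) z = b ∨ ((Equiv.swap a b) z ≠ a ∧ (Equiv.swap a b) z ∈ T)
    by_cases h1 : z = a
    · subst h1; left; rw [Equiv.swap_apply_left]
    · right
      have h2 : z ≠ b := fun h => hb (h ▸ hz)
      rw [Equiv.swap_apply_of_ne_of_ne h1 h2]; exact ⟨h1, hz⟩
  · rintro (rfl | ⟨h1, h2⟩)
    · exact ⟨a, ha, Equiv.swap_apply_left _ _⟩
    · have h3 : x ≠ b := fun h => hb (h ▸ h2)
      exact ⟨x, h2, Equiv.swap_apply_of_ne_of_ne h1 h3⟩

lemma sum_pairs (T : Finset (Fin n)) (φ : Fin n → Fin n → ℝ)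
    (h1 : ∀ a ∈ T, ∀ b ∈ T, φ a b = 0) (h2 : ∀ a ∉ T, ∀ b ∉ T, φ a b = 0)
    (h3 : ∀ a ∈ T, ∀ b ∉ T, φ b a = φ a b) :
    ∑ a : Fin n, ∑ b : Fin n, φ a b = 2 * ∑ a ∈ T, ∑ b ∈ Tᶜ, φ a b := by
  have e1 : ∀ a : Fin n, ∑ b : Fin n, φ a b = ∑ b ∈ T, φ a b + ∑ b ∈ Tᶜ, φ a b :=
    fun a => (Finset.sum_add_sum_compl T (φ a)).symm
  have e2 : ∑ a : Fin n, ∑ b : Fin n, φ a b
      = ∑ a ∈ T, ∑ b : Fin n, φ a b + ∑ a ∈ Tᶜ, ∑ b : Fin n, φ a b :=
    (Finset.sum_add_sum_compl T _).symm
  have e3 : ∑ a ∈ T, ∑ b : Fin n, φ a b = ∑ a ∈ T, ∑ b ∈ Tᶜ, φ a b := by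
    refine Finset.sum_congr rfl fun a ha => ?_
    rw [e1 a, Finset.sum_eq_zero (fun b hb => h1 a ha b hb), zero_add]
  have e4 : ∑ a ∈ Tᶜ, ∑ b : Fin n, φ a b = ∑ a ∈ Tᶜ, ∑ b ∈ T, φ a b := by
    refine Finset.sum_congr rfl fun a ha => ?_
    rw [e1 a, Finset.sum_eq_zero (s := Tᶜ)
      (fun b hb => h2 a (Finset.mem_compl.1 ha) b (Finset.mem_compl.1 hb)), add_zero]
  have e5 : ∑ a ∈ Tᶜ, ∑ b ∈ T, φ a b = ∑ a ∈ T, ∑ b ∈ Tᶜ, φ a b := by
    rw [Finset.sum_comm]
    refine Finset.sum_congr rfl fun a ha => Finset.sum_congr rfl fun b hb => ?_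
    exact h3 a ha b (Finset.mem_compl.1 hb)
  rw [e2, e3, e4, e5]
  ring

lemma inner_sum (T : Finset (Fin n)) (F : KS n k) {a : Fin n} (ha : a ∈ T) :
    ∑ b ∈ Tᶜ, (star k T F - star k (insert b (T.erase a)) F) =
      ((n : ℝ) - T.card) * star k T F -
        (((k : ℝ) - T.card + 1) * star k (T.erase a) F - star k T F) := by
  rw [Finset.sum_sub_distrib, Finset.sum_const, nsmul_eq_mul, Finset.card_compl,
    Fintype.card_fin, Nat.cast_sub (by simpa using Finset.card_le_univ T)]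
  congr 1
  by_cases hT : T.erase a ⊆ F.1
  · have e1 : ∀ b ∈ Tᶜ, star k (insert b (T.erase a)) F = if b ∈ F.1 then (1 : ℝ) else 0 := by
      intro b _
      unfold star
      simp only [Finset.insert_subset_iff, hT, and_true]
    rw [Finset.sum_congr rfl e1, Finset.sum_ite, Finset.sum_const_zero, add_zero,
      Finset.sum_const, nsmul_eq_mul, mul_one]
    have e2 : (Tᶜ.filter fun b => b ∈ F.1) = F.1 \ T := by
      ext b
      simp only [mem_filter, mem_compl, mem_sdiff]
      tauto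
    have e3 : (F.1 \ T).card + (F.1 ∩ T).card = k := by
      rw [Finset.card_sdiff_add_card_inter, F.2]
    have e4 : ((F.1 \ T).card : ℝ) = (k : ℝ) - (F.1 ∩ T).card := by
      have e3' : ((F.1 \ T).card : ℝ) + ((F.1 ∩ T).card : ℝ) = (k : ℝ) := by exact_mod_cast e3
      linarith
    rw [e2, e4]
    have e5 : star k (T.erase a) F = 1 := by unfold star; simp [hT]
    rw [e5]
    by_cases haF : a ∈ F.1
    · have e6 : T ⊆ F.1 := by
        intro x hx
        by_cases h : x = a
        · subst h; exact haF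
        · exact hT (Finset.mem_erase.2 ⟨h, hx⟩)
      have e7 : F.1 ∩ T = T := Finset.inter_eq_right.2 e6
      have e8 : star k T F = 1 := by unfold star; simp [e6]
      rw [e7, e8]; ring
    · have e6 : ¬ T ⊆ F.1 := fun h => haF (h ha)
      have e7 : F.1 ∩ T = T.erase a := by
        ext x
        simp only [mem_inter, mem_erase]
        constructor
        · rintro ⟨h1, h2⟩
          exact ⟨fun h => haF (h ▸ h1), h2⟩
        · rintro ⟨h1, h2⟩
          exact ⟨hT (Finset.mem_erase.2 ⟨h1, h2⟩), h2⟩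
      have e8 : star k T F = 0 := by unfold star; simp [e6]
      have e9 : ((T.erase a).card : ℝ) = (T.card : ℝ) - 1 := by
        rw [Finset.card_erase_of_mem ha, Nat.cast_sub (Finset.card_pos.2 ⟨a, ha⟩)]
        simp
      rw [e7, e8, e9]; ring
  · have e1 : ∀ b ∈ Tᶜ, star k (insert b (T.erase a)) F = 0 := by
      intro b _
      unfold star
      rw [if_neg]
      intro h
      exact hT ((Finset.subset_insert _ _).trans h)
    have e2 : star k T F = 0 := by
      unfold star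
      rw [if_neg]
      intro h
      exact hT ((Finset.erase_subset _ _).trans h)
    have e3 : star k (T.erase a) F = 0 := by
      unfold star
      rw [if_neg hT]
    rw [Finset.sum_congr rfl e1, e2, e3]
    simp

theorem str : STRStmt := by
  intro n k T
  funext F
  have h0 : (Y n k (star k T)) F =
      (1 / 2) * ∑ a : Fin n, ∑ b : Fin n, (star k T F - star k T (sw a b F)) := rfl
  rw [h0]
  have h1 : ∑ a : Fin n, ∑ b : Fin n, (star k T F - star k T (sw a b F)) =
      2 * ∑ a ∈ T, ∑ b ∈ Tᶜ, (star k T F - star k T (sw a b F)) := by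
    refine sum_pairs T (fun a b => star k T F - star k T (sw a b F)) ?_ ?_ ?_
    · intro a ha b hb
      simp only [star_sw, map_of_mem_mem T ha hb, sub_self]
    · intro a ha b hb
      simp only [star_sw, map_of_not_not T ha hb, sub_self]
    · intro a _ b _
      simp only [star_sw, Equiv.swap_comm b a]
  rw [h1]
  have h2 : ∀ a ∈ T, ∑ b ∈ Tᶜ, (star k T F - star k T (sw a b F)) =
      ((n : ℝ) - T.card) * star k T F -
        (((k : ℝ) - T.card + 1) * star k (T.erase a) F - star k T F) := by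
    intro a ha
    rw [← inner_sum T F ha]
    refine Finset.sum_congr rfl fun b hb => ?_
    rw [star_sw, map_of_mem_not T ha (Finset.mem_compl.1 hb)]
  rw [Finset.sum_congr rfl h2]
  simp only [Pi.sub_apply, Pi.smul_apply, smul_eq_mul, Finset.sum_apply, Finset.sum_sub_distrib,
    Finset.sum_const, nsmul_eq_mul, ← Finset.mul_sum]
  unfold y
  ring


end Pool.Agent.DPS.H59
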