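import Pool.Agent.Helper56_DPS.SPE
import Pool.Agent.Helper77_DPS.SYM
import Pool.Agent.Helper59_DPS.STR
import Pool.Agent.Helper60_DPS.STA
import Pool.Agent.Helper10_DPS.MRC
import Pool.Agent.Helper90_DPS.MKI
import Pool.Agent.Helper60_DPS.MPO
import Pool.Agent.Helper94_DPS.ANN
import Pool.Agent.Helper39_DPS.KNA
import Pool.Agent.Helper39_DPS.MEV
import Pool.Agent.Helper83_DPS.MAN
import Pool.Agent.Helper88_DPS.Kev
import Pool.Agent.Helper81_DPS.SUP
import Pool.Agent.Helper88_DPS.Dq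
import Pool.Agent.Helper65_DPS.DDR
import Pool.Agent.Helper94_DPS.DDC
import Pool.Agent.Helper94_DPS.DDT
import Pool.Agent.Helper94_DPS.WIT
import Pool.Agent.Helper81_DPS.WIM
import Pool.Agent.Helper33_DPS.Pos
import Pool.Agent.Helper33_DPS.Gen
import Pool.Agent.Helper24_DPS.P2A
import Pool.Agent.Helper88_DPS.R1v
import Pool.Agent.Helper88_DPS.R1p
import Pool.Agent.Helper19_DPS.QMJ
import Pool.Agent.Helper65_DPS.R1S
import Pool.Agent.Helper59_DPS.FIN

/-!
Assembly of the squad DPS (MP_d97b4e_co).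
-/

namespace Pool.Agent.DPS.H59

theorem the' : THEStmt := H33.the (H94.wit H88.ddi (H94.ddt H65.ddr (H94.ddc H65.ddr))) H81.wim

theorem pos' : POSStmt := H33.pos the'

theorem mpo' : MPOStmt := H60.mpo (H10.mrc str) H90.mki

theorem gen' : GENStmt :=
  H33.gen H56.spe H77.sym (H60.sta str) mpo' (H94.ann mpo') H39.kna (H88.kev H39.mev)
    (H88.sui H81.sup) pos'

theorem p2a' : P2AStmt := H24.p2a gen' mpo' H83.man H88.qua

theorem r1p' : R1PStmt := H88.r1p (H88.r1v gen' mpo' H39.mev H88.qua) H65.r1s H19.qmj p2a'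

theorem final : Final := fin p2a' r1p'

end Pool.Agent.DPS.H59
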